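import Pool.Agent.X105.JC.Dual

/-! The explicit polynomial map of real four-space. -/

set_option autoImplicit false

namespace Pool.Agent.X105.JC

open MvPolynomial

/-- The normalised map. -/
noncomputable def F4 : Fin 4 → MvPolynomial (Fin 4) ℝ :=
  ![fc (X 0) (X 1) (X 2) (X 3), C (1/2) * ft (X 0) (X 1) (X 2) (X 3),
    C (-1/8) * fa (X 0) (X 1) (X 2) (X 3), C (-1/4) * fu (X 0) (X 1) (X 2) (X 3)]

theorem eval_F4 {B : Type*} [CommRing B] [Algebra ℝ B] (w : Fin 4 → B) :
    aeval w (F4 0) = fc (w 0) (w 1) (w 2) (w 3) ∧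
    aeval w (F4 1) = algebraMap ℝ B (1/2) * ft (w 0) (w 1) (w 2) (w 3) ∧
    aeval w (F4 2) = algebraMap ℝ B (-1/8) * fa (w 0) (w 1) (w 2) (w 3) ∧
    aeval w (F4 3) = algebraMap ℝ B (-1/4) * fu (w 0) (w 1) (w 2) (w 3) := by
  have e : ∀ q, aeval w q = (aeval w : MvPolynomial (Fin 4) ℝ →ₐ[ℝ] B).toRingHom q := fun q => rfl
  have eX : ∀ i, (aeval w : MvPolynomial (Fin 4) ℝ →ₐ[ℝ] B).toRingHom (X i) = w i :=
    fun i => aeval_X w i
  refine ⟨?_, ?_, ?_, ?_⟩
  · change aeval w (fc (X 0) (X 1) (X 2) (X 3)) = _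
    rw [e, map_fc, eX, eX, eX, eX]
  · change aeval w (C (1/2) * ft (X 0) (X 1) (X 2) (X 3)) = _
    rw [map_mul, algHom_C, e, map_ft, eX, eX, eX, eX]
  · change aeval w (C (-1/8) * fa (X 0) (X 1) (X 2) (X 3)) = _
    rw [map_mul, algHom_C, e, map_fa, eX, eX, eX, eX]
  · change aeval w (C (-1/4) * fu (X 0) (X 1) (X 2) (X 3)) = _
    rw [map_mul, algHom_C, e, map_fu, eX, eX, eX, eX]

theorem cancel_alg {B : Type*} [CommRing B] [Algebra ℝ B] (r : ℝ) (hr : r ≠ 0) (a b : B)
    (h : algebraMap ℝ B r * a = algebraMap ℝ B r * b) : a = b := by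
  have h1 : algebraMap ℝ B r⁻¹ * (algebraMap ℝ B r * a) =
      algebraMap ℝ B r⁻¹ * (algebraMap ℝ B r * b) := by rw [h]
  rw [← mul_assoc, ← mul_assoc, ← map_mul, inv_mul_cancel₀ hr, map_one, one_mul, one_mul] at h1
  exact h1

theorem sq_dual (a : DualNumber ℂ) (h : a.fst = 0) : a^2 = 0 := by
  rw [sq]
  apply TrivSqZeroExt.ext
  · simp [h]
  · simp [h]

theorem inj_F4 (z v : Fin 4 → ℂ)
    (h : ∀ i, ∑ l, aeval z (pderiv l (F4 i)) * v l = 0) : v = 0 := by
  let w : Fin 4 → DualNumber ℂ := fun i => TrivSqZeroExt.inl (z i) + TrivSqZeroExt.inr (v i)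
  let w0 : Fin 4 → DualNumber ℂ := fun i => TrivSqZeroExt.inl (z i) + TrivSqZeroExt.inr 0
  have hw : ∀ i, aeval w (F4 i) = aeval w0 (F4 i) := by
    intro i
    have h1 := aeval_dual z v (F4 i)
    have h2 := aeval_dual z (fun _ => 0) (F4 i)
    rw [h i] at h1
    simp only [mul_zero, Finset.sum_const_zero] at h2
    exact h1.trans h2.symm
  obtain ⟨a1, a2, a3, a4⟩ := eval_F4 w
  obtain ⟨b1, b2, b3, b4⟩ := eval_F4 w0
  have c1 := hw 0
  have c2 := hw 1
  have c3 := hw 2
  have c4 := hw 3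
  rw [a1, b1] at c1
  rw [a2, b2] at c2
  rw [a3, b3] at c3
  rw [a4, b4] at c4
  replace c2 := cancel_alg _ (by norm_num) _ _ c2
  replace c3 := cancel_alg _ (by norm_num) _ _ c3
  replace c4 := cancel_alg _ (by norm_num) _ _ c4
  have htwo : ∀ a : DualNumber ℂ, 2 * a = 0 → a = 0 := by
    intro a ha
    rw [two_mul] at ha
    apply TrivSqZeroExt.ext
    · have := congrArg TrivSqZeroExt.fst ha
      simpa using this
    · have := congrArg TrivSqZeroExt.snd ha
      simpa using this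
  have hend : ∀ i, w i = w0 i → v i = 0 := by
    intro i hi
    have := congrArg TrivSqZeroExt.snd hi
    simpa [w, w0] using this
  by_cases hz : z 0 = 0
  · have hw0 : w0 0 = 0 := by
      simp [w0, hz]
    rw [hw0] at c1 c2 c3 c4
    have hsq : w 0 * w 0 = 0 := by
      rw [← sq]
      apply sq_dual
      simp [w, hz]
    obtain ⟨d0, d1, d2, d3⟩ := inj_zero htwo _ _ _ _ _ _ _ hsq c1 c2 c4 c3
    funext i
    apply hend
    fin_cases i
    · exact d0.trans hw0.symm
    · exact d1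
    · exact d2
    · exact d3
  · let I : DualNumber ℂ := TrivSqZeroExt.inl (z 0)⁻¹ + TrivSqZeroExt.inr (- (z 0)⁻¹ * v 0 * (z 0)⁻¹)
    let I' : DualNumber ℂ := TrivSqZeroExt.inl (z 0)⁻¹
    have hI : I * w 0 = 1 := by
      apply TrivSqZeroExt.ext
      · simp [I, w, hz]
      · simp [I, w]
        field_simp
        ring
    have hI' : I' * w0 0 = 1 := by
      apply TrivSqZeroExt.ext
      · simp [I', w0, hz]
      · simp [I', w0]
    have hX : (w 0 - w0 0)^2 = 0 := by
      apply sq_dual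
      simp [w, w0]
    have hW : (I^2 * fW (w 0) (w 1) - I'^2 * fW (w0 0) (w0 1))^2 = 0 := by
      apply sq_dual
      have e : ∀ q : DualNumber ℂ, q.fst = TrivSqZeroExt.fstHom ℂ ℂ ℂ q := fun q => rfl
      rw [e, map_sub, map_mul, map_mul, map_pow, map_pow]
      have e1 : ∀ a b : DualNumber ℂ, (TrivSqZeroExt.fstHom ℂ ℂ ℂ) (fW a b) = fW a.fst b.fst :=
        fun a b => map_fW (TrivSqZeroExt.fstHom ℂ ℂ ℂ).toRingHom a b
      rw [e1, e1, ← e, ← e]
      simp [I, I', w, w0]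
    obtain ⟨d0, d1, d2, d3⟩ := inj_unit htwo _ _ _ _ _ _ _ _ I I' hI hI' hX hW c1 c2 c4 c3
    funext i
    apply hend
    fin_cases i
    · exact d0
    · exact d1
    · exact d2
    · exact d3

theorem lin_F4 (v : Fin 4 → ℂ) (i : Fin 4) :
    ∑ l, aeval (0 : Fin 4 → ℂ) (pderiv l (F4 i)) * v l = v i ∧ aeval (0 : Fin 4 → ℂ) (F4 i) = 0 := by
  let w : Fin 4 → DualNumber ℂ := fun i => TrivSqZeroExt.inl ((0 : Fin 4 → ℂ) i) + TrivSqZeroExt.inr (v i)
  have hww : ∀ i j, w i * w j = 0 := by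
    intro i j
    apply TrivSqZeroExt.ext <;> simp [w]
  have h1 := aeval_dual 0 v (F4 i)
  have h2 : aeval w (F4 i) = w i := by
    obtain ⟨a1, a2, a3, a4⟩ := eval_F4 w
    obtain ⟨l1, l2, l3, l4⟩ := lin_all (w 0) (w 1) (w 2) (w 3) (hww _ _) (hww _ _) (hww _ _) (hww _ _)
    rw [l1] at a1
    rw [l2] at a2
    rw [l3] at a4
    rw [l4] at a3
    have e : ∀ (r s : ℝ) (q : DualNumber ℂ), r * s = 1 →
        algebraMap ℝ (DualNumber ℂ) r * (algebraMap ℝ (DualNumber ℂ) s * q) = q := by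
      intro r s q h
      rw [← mul_assoc, ← map_mul, h, map_one, one_mul]
    fin_cases i
    · exact a1
    · refine a2.trans ?_
      have := e (1/2) 2 (w 1) (by norm_num)
      rw [map_ofNat] at this
      exact this
    · refine a3.trans ?_
      have := e (-1/8) (-8) (w 2) (by norm_num)
      rw [map_neg (algebraMap ℝ (DualNumber ℂ)) 8, map_ofNat] at this
      exact this
    · refine a4.trans ?_
      have := e (-1/4) (-4) (w 3) (by norm_num)
      rw [map_neg (algebraMap ℝ (DualNumber ℂ)) 4, map_ofNat] at this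
      exact this
  have h3 := h1.symm.trans h2
  constructor
  · have := congrArg TrivSqZeroExt.snd h3
    simpa [w] using this
  · have := congrArg TrivSqZeroExt.fst h3
    simpa [w] using this

theorem coeff_zero_F4 (i : Fin 4) : coeff 0 (F4 i) = 0 := by
  have h := (lin_F4 0 i).2
  rw [← constantCoeff_eq]
  have h1 : aeval (0 : Fin 4 → ℂ) (F4 i) = algebraMap ℝ ℂ (constantCoeff (F4 i)) :=
    MvPolynomial.aeval_zero _
  rw [h1] at h
  simpa using h

theorem comp_one_F4 (i : Fin 4) : homogeneousComponent 1 (F4 i) = X i := by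
  have hc : ∀ l, coeff (Finsupp.single l 1) (F4 i) = if l = i then 1 else 0 := by
    intro l
    have h := (lin_F4 (Pi.single l 1) i).1
    rw [Finset.sum_eq_single l] at h
    · rw [Pi.single_eq_same, mul_one] at h
      have h1 : aeval (0 : Fin 4 → ℂ) (pderiv l (F4 i)) =
        algebraMap ℝ ℂ (constantCoeff (pderiv l (F4 i))) := MvPolynomial.aeval_zero _
      rw [h1, constantCoeff_eq, coeff_pderiv] at h
      simp only [zero_add, Finsupp.coe_zero, Pi.zero_apply, Nat.cast_zero, mul_one] at h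
      rw [Pi.single_apply] at h
      have h2 : algebraMap ℝ ℂ (coeff (Finsupp.single l 1) (F4 i)) =
          algebraMap ℝ ℂ (if l = i then 1 else 0) := by
        rw [h]
        by_cases hl : l = i
        · subst hl
          simp
        · rw [if_neg hl, if_neg (fun h' => hl h'.symm)]
          simp
      exact (algebraMap ℝ ℂ).injective h2
    · intro b _ hb
      rw [Pi.single_eq_of_ne hb, mul_zero]
    · simp
  ext m
  rw [coeff_homogeneousComponent]
  by_cases hm : m.degree = 1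
  · rw [if_pos hm]
    obtain ⟨l, rfl⟩ := (Finsupp.sum_eq_one_iff m).1 (by
      rw [← hm, Finsupp.degree_apply]
      rfl)
    rw [hc, coeff_X']
    by_cases hl : l = i
    · subst hl
      simp
    · rw [if_neg hl, if_neg]
      intro h
      exact hl ((Finsupp.single_left_injective one_ne_zero h).symm)
  · rw [if_neg hm, coeff_X', if_neg]
    intro h
    apply hm
    rw [← h]
    simp

theorem coll_F4 (i : Fin 4) :
    eval (![1, 0, 0, 0] : Fin 4 → ℝ) (F4 i) = eval (![-1, 0, 5/2, -3] : Fin 4 → ℝ) (F4 i) := by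
  have e : ∀ w : Fin 4 → ℝ, eval w (F4 i) = aeval w (F4 i) := fun w => by rw [aeval_eq_eval]
  rw [e, e]
  obtain ⟨a1, a2, a3, a4⟩ := eval_F4 (![1, 0, 0, 0] : Fin 4 → ℝ)
  obtain ⟨b1, b2, b3, b4⟩ := eval_F4 (![-1, 0, 5/2, -3] : Fin 4 → ℝ)
  fin_cases i
  · refine a1.trans (Eq.trans ?_ b1.symm)
    simp [fc, fc1, fR, fR0, fR1, fR2, fM, fp]
    norm_num
  · refine a2.trans (Eq.trans ?_ b2.symm)
    simp [ft, ft0, fS, fS0, fS1, fS2, fR1, fR2, fM, fp, fW]
    norm_num
  · refine a3.trans (Eq.trans ?_ b3.symm)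
    simp [fa, fB, fc1, ft0, fS, fS0, fS1, fS2, fR, fR0, fR1, fR2, fM, fp, fW]
    norm_num
  · refine a4.trans (Eq.trans ?_ b4.symm)
    simp [fu, fc1, ft0, fS, fS0, fS1, fS2, fR, fR0, fR1, fR2, fM, fp, fW]
    norm_num

end Pool.Agent.X105.JC
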