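import Mathlib

/-! From non-injective polynomial maps with everywhere invertible complex Jacobian matrix to
non-injective maps all of whose Jacobian matrices are unipotent. -/

set_option autoImplicit false

namespace Pool.Agent.X105.JC

open MvPolynomial

/-! ### Polynomials -/

theorem aeval_scale {n : ℕ} {d : ℕ} {q : MvPolynomial (Fin n) ℝ} (hq : q.IsHomogeneous d) (u : ℂ)
    (z : Fin n → ℂ) : aeval (fun i => u * z i) q = u ^ d * aeval z q := by
  rw [aeval_def, aeval_def, eval₂_eq', eval₂_eq', Finset.mul_sum]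
  apply Finset.sum_congr rfl
  intro m hm
  have h1 : ∏ i, (u * z i) ^ m i = u ^ d * ∏ i, z i ^ m i := by
    simp only [mul_pow, Finset.prod_mul_distrib]
    congr 1
    rw [Finset.prod_pow_eq_pow_sum]
    congr 1
    have h2 := hq (mem_support_iff.1 hm)
    rw [← h2, Finsupp.weight_apply, Finsupp.sum_fintype]
    · simp
    · simp
  rw [h1]
  ring

theorem hasFDerivAt_eval {n : ℕ} (p : MvPolynomial (Fin n) ℝ) (x : Fin n → ℝ) :
    HasFDerivAt (fun x : Fin n → ℝ => eval x p)
      (∑ l, eval x (pderiv l p) • (ContinuousLinearMap.proj l : (Fin n → ℝ) →L[ℝ] ℝ)) x := by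
  induction p using MvPolynomial.induction_on with
  | C a =>
    simp only [eval_C, pderiv_C, map_zero, zero_smul, Finset.sum_const_zero]
    exact hasFDerivAt_const a x
  | add p q hp hq =>
    have h := hp.add hq
    simp only [map_add, add_smul, Finset.sum_add_distrib]
    exact h
  | mul_X p i hp =>
    have hX : HasFDerivAt (fun x : Fin n → ℝ => x i)
      (ContinuousLinearMap.proj i : (Fin n → ℝ) →L[ℝ] ℝ) x := hasFDerivAt_apply i x
    have h := hp.mul hX
    simp only [map_mul, eval_X]
    refine h.congr_fderiv ?_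
    simp only [Derivation.leibniz, pderiv_X, smul_eq_mul, map_add, map_mul, eval_X, add_smul,
      Finset.sum_add_distrib]
    congr 1
    · rw [Finset.sum_eq_single i]
      · simp
      · intro b _ hb
        rw [Pi.single_eq_of_ne (Ne.symm hb)]
        simp
      · simp
    · rw [Finset.smul_sum]
      apply Finset.sum_congr rfl
      intro l _
      rw [smul_smul]

theorem contDiff_eval {n : ℕ} (p : MvPolynomial (Fin n) ℝ) :
    ContDiff ℝ 1 (fun x : Fin n → ℝ => eval x p) := by
  induction p using MvPolynomial.induction_on with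
  | C a =>
    simp only [eval_C]
    exact contDiff_const
  | add p q hp hq =>
    simp only [map_add]
    exact hp.add hq
  | mul_X p i hp =>
    simp only [map_mul, eval_X]
    exact hp.mul (contDiff_apply ℝ ℝ i)

/-! ### Complex eigenvectors -/

theorem exists_eigen {m : ℕ} (L : (Fin m → ℝ) →ₗ[ℝ] (Fin m → ℝ)) (z : ℂ)
    (hz : Polynomial.aeval z (LinearMap.toMatrix' L).charpoly = 0) :
    ∃ v : Fin m → ℂ, v ≠ 0 ∧ ∀ k, ((L (fun i => (v i).re) k : ℝ) : ℂ) +
      ((L (fun i => (v i).im) k : ℝ) : ℂ) * Complex.I = z * v k := by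
  set M := LinearMap.toMatrix' L with hM
  have h1 : (Matrix.scalar (Fin m) z - M.map (algebraMap ℝ ℂ)).det = 0 := by
    rw [← Matrix.eval_charpoly, Matrix.charpoly_map, Polynomial.eval_map]
    exact hz
  obtain ⟨v, hv, h⟩ := Matrix.exists_mulVec_eq_zero_iff.2 h1
  refine ⟨v, hv, fun k => ?_⟩
  have h2 : ∀ w : Fin m → ℝ, L w k = ∑ l, M k l * w l := by
    intro w
    rw [← LinearMap.toMatrix'_mulVec L w]
    rfl
  have h3 : z * v k = ∑ l, (M k l : ℂ) * v l := by
    have := congrFun h k
    rw [Matrix.sub_mulVec, Pi.sub_apply, Pi.zero_apply, sub_eq_zero] at this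
    rw [show (Matrix.scalar (Fin m) z).mulVec v k = z * v k by
      rw [Matrix.scalar_apply, Matrix.mulVec_diagonal]] at this
    rw [this]
    rfl
  rw [h3, h2, h2]
  push_cast
  rw [Finset.sum_mul, ← Finset.sum_add_distrib]
  apply Finset.sum_congr rfl
  intro l _
  conv_rhs => rw [← Complex.re_add_im (v l)]
  ring

end Pool.Agent.X105.JC
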