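import Mathlib

/-! An explicit polynomial self-map of the affine four-space which is everywhere etale and which
is not injective. Algebraic identities, over a commutative ring. -/

set_option autoImplicit false

namespace Pool.Agent.X105.JC

section defs
variable {A : Type*} [CommRing A] (X y x g : A)

def fW : A := 1 + 4 * (X * y)
def fp : A := 1 + 6 * (X * y)^2 - 40 * (X * y)^3
def fc1 : A := 1 - 6 * (X * y) + 42 * (X * y)^2 - 308 * (X * y)^3
def ft0 : A := 2 - 12 * (X * y) + 100 * (X * y)^2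
def fM : A := 57 * y^4 + g * (1 + 2 * (X * y)) + 2 * X^2 * x
def fR0 : A := 1050 * y^4 - 4 * g
def fR1 : A := 12 * y * g - 4392 * y^5
def fR2 : A := y^6 * (20064 - 17280 * (X * y) + 115200 * (X * y)^2 - 256000 * (X * y)^3)
    + 24 * y * (2 * y * g) - 12 * x + 48 * (X * y) * x
    - 12 * y^2 * (12 - 80 * (X * y) + 36 * (X * y)^2 - 480 * (X * y)^3 + 1600 * (X * y)^4) * fM X y x g
    + 12 * fp X y * X^2 * fM X y x g ^ 2 - 4 * X^6 * fM X y x g ^ 3
def fR : A := fR0 y g + X * fR1 y g + X^2 * fR2 X y x g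
def fS0 : A := 125 * y^4 + 3 * g
def fS1 : A := 2 * y * g + 192 * y^5
def fS2 : A := -2 * x - 4 * y * fR1 y g - fW X y * fR2 X y x g
def fS : A := fS0 y g + X * fS1 y g + X^2 * fS2 X y x g
/-- first component -/
def fc : A := X * (fc1 X y + X^4 * fR X y x g)
/-- second component -/
def ft : A := y * ft0 X y + X^3 * fS X y x g
/-- fourth component -/
def fu : A := y^4 * (8400 + 49632 * (X * y) + 37824 * (X * y)^2 - 23040 * (X * y)^3
      - 5677056 * (X * y)^4 - 24285184 * (X * y)^5)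
    + fS X y x g * (-24 * fW X y * (X * y) * ft0 X y - 12 * fW X y ^ 2 * fc1 X y)
    + fR X y x g * (-12 * fW X y ^ 2 * (X * y) * ft0 X y - 8 * fW X y ^ 3 * fc1 X y)
    + X^4 * (-12 * fW X y * fS X y x g ^ 2 - 12 * fW X y ^ 2 * fR X y x g * fS X y x g
      - 4 * fW X y ^ 3 * fR X y x g ^ 2)
/-- third component, up to a factor -/
def fB : A := y^6 * (34416 - 17344 * (X * y) - 4750592 * (X * y)^2 - 18213888 * (X * y)^3)
    + fS2 X y x g * (-12 * fW X y * (X * y) * ft0 X y - 8 * fW X y ^ 2 * fc1 X y)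
    + fR2 X y x g * (-8 * fW X y ^ 2 * (X * y) * ft0 X y - 6 * fW X y ^ 3 * fc1 X y)
    + y^2 * (-32 - 80 * (X * y) + 9536 * (X * y)^2 + 39424 * (X * y)^3) * (fS0 y g + X * fS1 y g)
    + y^2 * (-140 - 120 * (X * y) + 7520 * (X * y)^2 + 59776 * (X * y)^3 + 118272 * (X * y)^4)
        * (fR0 y g + X * fR1 y g)
    - 40 * y * fS1 y g - 52 * y * fR1 y g
    + X^2 * (-6 * fW X y * fS X y x g ^ 2 - 8 * fW X y ^ 2 * fR X y x g * fS X y x g
      - 3 * fW X y ^ 3 * fR X y x g ^ 2)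
/-- third component -/
def fa : A := fW X y * fB X y x g
/-- the coordinate `X * k` -/
def fk : A := fp X y - X^4 * fM X y x g
/-- the coordinate `X ^ 3 * J` -/
def fJ : A := 3 + 18 * (X * y) + 6 * (X * y)^2 + 76 * (X * y)^3 + 2 * X^4 * g
/-- the quotient `fc / X` -/
def fC : A := fc1 X y + X^4 * fR X y x g

theorem rel_J : fC X y x g = fJ X y g - 6 * fW X y * fk X y x g + 4 * fk X y x g ^ 3 := by
  have h : fR X y x g = y^4 * (1392 - 5760 * (X * y) + 20064 * (X * y)^2 - 17280 * (X * y)^3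
      + 115200 * (X * y)^4 - 256000 * (X * y)^5) + 2 * g + 6 * fW X y * fM X y x g
      - 12 * fp X y ^ 2 * fM X y x g + 12 * fp X y * X^4 * fM X y x g ^ 2
      - 4 * X^8 * fM X y x g ^ 3 := by
    have hM : ∀ M : A, M = 57 * y^4 + g * (1 + 2 * (X * y)) + 2 * X^2 * x →
      fR0 y g + X * fR1 y g + X^2 * (y^6 * (20064 - 17280 * (X * y) + 115200 * (X * y)^2 - 256000 * (X * y)^3)
      + 24 * y * (2 * y * g) - 12 * x + 48 * (X * y) * x
      - 12 * y^2 * (12 - 80 * (X * y) + 36 * (X * y)^2 - 480 * (X * y)^3 + 1600 * (X * y)^4) * M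
      + 12 * fp X y * X^2 * M ^ 2 - 4 * X^6 * M ^ 3)
      = y^4 * (1392 - 5760 * (X * y) + 20064 * (X * y)^2 - 17280 * (X * y)^3
      + 115200 * (X * y)^4 - 256000 * (X * y)^5) + 2 * g + 6 * fW X y * M
      - 12 * fp X y ^ 2 * M + 12 * fp X y * X^4 * M ^ 2
      - 4 * X^8 * M ^ 3 := by
      intro M hM
      rw [fR0, fR1, fp, fW]
      linear_combination (24 * X * y - 6) * (-1 : A) * hM
    exact hM _ rfl
  rw [fC, h, fk, fJ, fc1, fW, fp]
  ring

theorem rel_t : X * ft X y x g = fk X y x g - fW X y * fC X y x g := by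
  have h : fS X y x g = 1232 * y^4 - fM X y x g - fW X y * fR X y x g := by
    rw [fS, fR, fS2, fM, fS0, fS1, fR0, fR1, fW]
    ring
  rw [ft, fC, h, fk, fc1, fW, fp, ft0]
  ring

theorem rel_u : X^4 * fu X y x g = 1 + 3 * fW X y ^ 2 - 12 * fW X y * (X * ft X y x g)^2
    - 12 * fW X y ^ 2 * fC X y x g * (X * ft X y x g) - 4 * fW X y ^ 3 * fC X y x g ^ 2 := by
  rw [fu, ft, fC]
  generalize fR X y x g = R
  generalize fS X y x g = S
  rw [fc1, fW, ft0]
  ring

theorem rel_B : X^2 * fB X y x g = y^4 * (7300 + 34784 * (X * y) + 34416 * (X * y)^2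
      - 17344 * (X * y)^3 - 4750592 * (X * y)^4 - 18213888 * (X * y)^5)
    + fS X y x g * (-12 * fW X y * (X * y) * ft0 X y - 8 * fW X y ^ 2 * fc1 X y)
    + fR X y x g * (-8 * fW X y ^ 2 * (X * y) * ft0 X y - 6 * fW X y ^ 3 * fc1 X y)
    + X^4 * (-6 * fW X y * fS X y x g ^ 2 - 8 * fW X y ^ 2 * fR X y x g * fS X y x g
      - 3 * fW X y ^ 3 * fR X y x g ^ 2) := by
  have h1 : fS X y x g = fS0 y g + X * fS1 y g + X^2 * fS2 X y x g := rfl
  have h2 : fR X y x g = fR0 y g + X * fR1 y g + X^2 * fR2 X y x g := rfl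
  rw [fB]
  generalize fR X y x g = R at *
  generalize fS X y x g = S at *
  have h3 : S * (-12 * fW X y * (X * y) * ft0 X y - 8 * fW X y ^ 2 * fc1 X y) =
      (fS0 y g + X * fS1 y g + X^2 * fS2 X y x g) *
      (-12 * fW X y * (X * y) * ft0 X y - 8 * fW X y ^ 2 * fc1 X y) := by rw [h1]
  have h4 : R * (-8 * fW X y ^ 2 * (X * y) * ft0 X y - 6 * fW X y ^ 3 * fc1 X y) =
      (fR0 y g + X * fR1 y g + X^2 * fR2 X y x g) *
      (-8 * fW X y ^ 2 * (X * y) * ft0 X y - 6 * fW X y ^ 3 * fc1 X y) := by rw [h2]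
  rw [h3, h4]
  generalize fR2 X y x g = R2
  generalize fS2 X y x g = S2
  rw [fc1, fW, ft0, fR0, fR1, fS0, fS1]
  ring

theorem rel_a : X^6 * fa X y x g = fW X y * (1 + 2 * fW X y ^ 2 - 6 * fW X y * (X * ft X y x g)^2
    - 8 * fW X y ^ 2 * fC X y x g * (X * ft X y x g) - 3 * fW X y ^ 3 * fC X y x g ^ 2) := by
  have h : X^6 * fa X y x g = fW X y * (X^4 * (X^2 * fB X y x g)) := by rw [fa]; ring
  rw [h, rel_B, ft, fC]
  generalize fR X y x g = R
  generalize fS X y x g = S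
  rw [fc1, fW, ft0]
  ring

end defs

end Pool.Agent.X105.JC
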