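import Pool.Agent.X105.JC.Pencil

/-! The reduction. -/

set_option autoImplicit false

namespace Pool.Agent.X105.JC

open MvPolynomial

theorem aeval_ofReal {n : ℕ} (x : Fin n → ℝ) (q : MvPolynomial (Fin n) ℝ) :
    aeval (fun l => (x l : ℂ)) q = ((eval x q : ℝ) : ℂ) := by
  have h := MvPolynomial.aeval_algebraMap_apply ℂ x q
  rw [aeval_eq_eval] at h
  exact h

theorem sum_comp {n K : ℕ} (p : MvPolynomial (Fin n) ℝ) (i : Fin n)
    (hdeg : p.totalDegree ≤ K + 2) (h0 : coeff 0 p = 0) (h1 : homogeneousComponent 1 p = X i) :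
    p = X i + ∑ j ∈ Finset.range (K + 1), homogeneousComponent (j + 2) p := by
  have h2 : ∑ m ∈ Finset.range (K + 3), homogeneousComponent m p = p := by
    conv_rhs => rw [← sum_homogeneousComponent p]
    symm
    apply Finset.sum_subset
    · intro m hm
      rw [Finset.mem_range] at hm ⊢
      omega
    · intro m _ hm
      apply homogeneousComponent_eq_zero
      rw [Finset.mem_range] at hm
      omega
  conv_lhs => rw [← h2]
  rw [Finset.sum_range_succ', Finset.sum_range_succ', homogeneousComponent_zero, h0, C_0, add_zero,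
    h1, add_comm]

theorem pderiv_expand {n K : ℕ} (p : MvPolynomial (Fin n) ℝ) (i : Fin n)
    (hdeg : p.totalDegree ≤ K + 2) (h0 : coeff 0 p = 0) (h1 : homogeneousComponent 1 p = X i)
    (u : ℂ) (x : Fin n → ℝ) (l : Fin n) :
    aeval (fun l => u * (x l : ℂ)) (pderiv l p) = (if l = i then 1 else 0) +
      ∑ j ∈ Finset.range (K + 1), u ^ (j + 1) *
        ((eval x (pderiv l (homogeneousComponent (j + 2) p)) : ℝ) : ℂ) := by
  conv_lhs => rw [sum_comp p i hdeg h0 h1]
  rw [map_add, map_add, map_sum, map_sum]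
  congr 1
  · rw [pderiv_X, Pi.single_apply]
    by_cases h : l = i
    · subst h
      simp
    · rw [if_neg h, if_neg (fun h' => h h'.symm), map_zero]
  · apply Finset.sum_congr rfl
    intro j _
    have hh : (pderiv l (homogeneousComponent (j + 2) p)).IsHomogeneous (j + 1) :=
      (homogeneousComponent_isHomogeneous (j + 2) p).pderiv
    rw [aeval_scale hh, aeval_ofReal]

/-- **Reduction to unipotent Jacobian matrices.** -/
theorem reduction {n : ℕ} (hn : 2 ≤ n) (F : Fin n → MvPolynomial (Fin n) ℝ)
    (h0 : ∀ i, coeff 0 (F i) = 0) (h1 : ∀ i, homogeneousComponent 1 (F i) = X i)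
    (hJ : ∀ z v : Fin n → ℂ, (∀ i, ∑ l, aeval z (pderiv l (F i)) * v l = 0) → v = 0)
    (p q : Fin n → ℝ) (hpq : p ≠ q) (hF : ∀ i, eval p (F i) = eval q (F i)) :
    ∃ m : ℕ, 2 ≤ m ∧ ∃ f : (Fin m → ℝ) → (Fin m → ℝ), ContDiff ℝ 1 f ∧
      (∀ x, ∀ z : ℂ, Polynomial.aeval z
        (LinearMap.toMatrix' ((fderiv ℝ f x : (Fin m → ℝ) →L[ℝ] (Fin m → ℝ)) :
          (Fin m → ℝ) →ₗ[ℝ] (Fin m → ℝ))).charpoly = 0 → z = 1) ∧
      ¬ Function.Injective f := by
  obtain ⟨K, hK⟩ : ∃ K, ∀ i, (F i).totalDegree ≤ K + 2 :=
    ⟨Finset.univ.sup (fun i => (F i).totalDegree), fun i =>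
      (Finset.le_sup (f := fun i => (F i).totalDegree) (Finset.mem_univ i)).trans
        (Nat.le_add_right _ _)⟩
  let e : Fin (K + 1) × Fin n ≃ Fin ((K + 1) * n) := finProdFinEquiv
  let f : (Fin ((K + 1) * n) → ℝ) → (Fin ((K + 1) * n) → ℝ) :=
    fun x k => Phi F K (fun a => x (e a)) (e.symm k)
  let R : (Fin ((K + 1) * n) → ℝ) →L[ℝ] (Fin (K + 1) × Fin n → ℝ) :=
    ContinuousLinearMap.pi fun a => ContinuousLinearMap.proj (e a)
  let S : (Fin (K + 1) × Fin n → ℝ) →L[ℝ] (Fin ((K + 1) * n) → ℝ) :=
    ContinuousLinearMap.pi fun k => ContinuousLinearMap.proj (e.symm k)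
  have hf : f = fun x => S (Phi F K (R x)) := rfl
  have hfd : ∀ x, HasFDerivAt f (S.comp ((dPhi F K (R x)).comp R)) x := by
    intro x
    exact S.hasFDerivAt.comp x ((hasFDerivAt_Phi F K (R x)).comp x R.hasFDerivAt)
  refine ⟨(K + 1) * n, ?_, f, ?_, ?_, ?_⟩
  · calc 2 ≤ n := hn
      _ ≤ (K + 1) * n := Nat.le_mul_of_pos_left n (Nat.succ_pos K)
  · rw [hf]
    exact S.contDiff.comp ((contDiff_Phi F K).comp R.contDiff)
  · intro x z hz
    rw [(hfd x).fderiv] at hz
    obtain ⟨v, hv, hvk⟩ := exists_eigen _ z hz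
    by_contra hz1
    apply hv
    set y : Fin n → ℝ := fun l => R x (0, l) with hy
    let V : ℕ → Fin n → ℂ := fun j i => if h : j < K + 1 then v (e (⟨j, h⟩, i)) else 0
    let B : ℕ → Fin n → ℂ := fun j i => ∑ l,
      ((eval y (pderiv l (homogeneousComponent (j + 2) (F i))) : ℝ) : ℂ) * V 0 l
    have hpen := pencil (K := K) V B z hz1 ?_ ?_ ?_ ?_
    · funext k
      obtain ⟨a, rfl⟩ := e.surjective k
      have h := congrFun (hpen a.1 (Nat.lt_succ_iff.1 a.1.2)) a.2
      have h2 : V a.1 a.2 = v (e a) := by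
        simp only [V]
        rw [dif_pos a.1.2]
      rw [h2] at h
      exact h
    · intro j hj i
      have hj' : j < K + 1 := Nat.lt_succ_of_le hj
      have h := hvk (e (⟨j, hj'⟩, i))
      have hS : ∀ w : Fin ((K + 1) * n) → ℝ,
          (S.comp ((dPhi F K (R x)).comp R)) w (e (⟨j, hj'⟩, i)) =
          dPhi F K (R x) (fun a => w (e a)) (⟨j, hj'⟩, i) := by
        intro w
        change dPhi F K (R x) (R w) (e.symm (e (⟨j, hj'⟩, i))) = _
        rw [e.symm_apply_apply]
        rfl
      simp only [ContinuousLinearMap.coe_coe] at h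
      rw [hS, hS, dPhi_apply, dPhi_apply] at h
      have hVj : V j i = v (e (⟨j, hj'⟩, i)) := by
        simp only [V]
        rw [dif_pos hj']
      have hV0 : ∀ l, V 0 l = v (e (0, l)) := by
        intro l
        simp only [V]
        rw [dif_pos (Nat.succ_pos K)]
        rfl
      have hn1 : ((nxt (fun a => (v (e a)).re) ((⟨j, hj'⟩ : Fin (K + 1)), i) : ℝ) : ℂ) +
          ((nxt (fun a => (v (e a)).im) ((⟨j, hj'⟩ : Fin (K + 1)), i) : ℝ) : ℂ) * Complex.I =
          V (j + 1) i := by
        simp only [nxt, V]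
        split_ifs with h1
        · exact Complex.re_add_im _
        · simp
      have hB : B j i = ∑ l, ((eval y (pderiv l (homogeneousComponent (j + 2) (F i))) : ℝ) : ℂ) *
          v (e (0, l)) := by
        apply Finset.sum_congr rfl
        intro l _
        rw [hV0]
      have hsum : ((∑ l, eval y (pderiv l (homogeneousComponent (j + 2) (F i))) *
          (v (e (0, l))).re : ℝ) : ℂ) +
          ((∑ l, eval y (pderiv l (homogeneousComponent (j + 2) (F i))) *
          (v (e (0, l))).im : ℝ) : ℂ) * Complex.I = B j i := by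
        rw [hB]
        push_cast
        rw [Finset.sum_mul, ← Finset.sum_add_distrib]
        apply Finset.sum_congr rfl
        intro l _
        conv_rhs => rw [← Complex.re_add_im (v (e (0, l)))]
        ring
      have hre := Complex.re_add_im (v (e (⟨j, hj'⟩, i)))
      push_cast at h hsum
      rw [hVj]
      have hy' : (fun l => R x (0, l)) = y := rfl
      rw [hy'] at h
      linear_combination h - hsum + hn1 + (-1 : ℂ) * hre
    · funext i
      simp only [V]
      rw [dif_neg (lt_irrefl _)]
      rfl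
    · intro hV0 j
      funext i
      simp only [B]
      rw [hV0]
      simp
    · intro u hu
      apply hJ (fun l => u * (y l : ℂ))
      intro i
      have h2 : ∀ l, aeval (fun l => u * (y l : ℂ)) (pderiv l (F i)) * V 0 l =
          (if l = i then V 0 l else 0) + ∑ j ∈ Finset.range (K + 1), u ^ (j + 1) *
          (((eval y (pderiv l (homogeneousComponent (j + 2) (F i))) : ℝ) : ℂ) * V 0 l) := by
        intro l
        rw [pderiv_expand (F i) i (hK i) (h0 i) (h1 i), add_mul, Finset.sum_mul]
        congr 1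
        · split_ifs <;> simp
        · apply Finset.sum_congr rfl
          intro j _
          ring
      rw [Finset.sum_congr rfl (fun l _ => h2 l), Finset.sum_add_distrib, Finset.sum_ite_eq' ,
        if_pos (Finset.mem_univ i), Finset.sum_comm]
      rw [← hu i]
      congr 1
      apply Finset.sum_congr rfl
      intro j _
      simp only [B]
      rw [Finset.mul_sum]
  · intro hinj
    apply hpq
    let lift : (Fin n → ℝ) → Fin (K + 1) × Fin n → ℝ := fun p a =>
      if a.1 = 0 then p a.2 else
        - ∑ j ∈ Finset.Ico (a.1 : ℕ) (K + 1), eval p (homogeneousComponent (j + 2) (F a.2))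
    have hl0 : ∀ (p : Fin n → ℝ), (fun l => lift p (0, l)) = p := by
      intro p
      funext l
      simp [lift]
    have hnx : ∀ (p : Fin n → ℝ) (a : Fin (K + 1) × Fin n), nxt (lift p) a =
        - ∑ j ∈ Finset.Ico ((a.1 : ℕ) + 1) (K + 1),
          eval p (homogeneousComponent (j + 2) (F a.2)) := by
      intro p a
      unfold nxt
      split_ifs with h
      · simp only [lift]
        rw [if_neg]
        intro h'
        have := congrArg Fin.val h'
        simp at this
      · rw [Finset.Ico_eq_empty_of_le (by omega)]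
        simp
    have hP : ∀ (p : Fin n → ℝ) (a : Fin (K + 1) × Fin n), Phi F K (lift p) a =
        if a.1 = 0 then eval p (F a.2) else 0 := by
      intro p a
      have hico : ∑ j ∈ Finset.Ico (a.1 : ℕ) (K + 1),
          eval p (homogeneousComponent (j + 2) (F a.2)) =
          eval p (homogeneousComponent ((a.1 : ℕ) + 2) (F a.2)) +
          ∑ j ∈ Finset.Ico ((a.1 : ℕ) + 1) (K + 1),
          eval p (homogeneousComponent (j + 2) (F a.2)) :=
        Finset.sum_eq_sum_Ico_succ_bot a.1.2 _
      unfold Phi
      rw [hnx, hl0]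
      by_cases ha : a.1 = 0
      · rw [if_pos ha]
        have h2 : lift p a = p a.2 := by
          simp only [lift]
          rw [if_pos ha]
        have h3 : eval p (F a.2) = p a.2 + ∑ j ∈ Finset.range (K + 1),
            eval p (homogeneousComponent (j + 2) (F a.2)) := by
          conv_lhs => rw [sum_comp (F a.2) a.2 (hK a.2) (h0 a.2) (h1 a.2)]
          rw [map_add, eval_X, map_sum]
        rw [h2, h3]
        rw [ha] at hico ⊢
        rw [Finset.range_eq_Ico]
        simp only [Fin.val_zero] at hico ⊢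
        linarith
      · rw [if_neg ha]
        have h2 : lift p a = - ∑ j ∈ Finset.Ico (a.1 : ℕ) (K + 1),
            eval p (homogeneousComponent (j + 2) (F a.2)) := by
          simp only [lift]
          rw [if_neg ha]
        rw [h2, hico]
        ring
    have h4 : f (fun k => lift p (e.symm k)) = f (fun k => lift q (e.symm k)) := by
      funext k
      simp only [f, e.symm_apply_apply]
      change Phi F K (lift p) (e.symm k) = Phi F K (lift q) (e.symm k)
      rw [hP, hP, hF]
    have h5 : (fun k => lift p (e.symm k)) = (fun k => lift q (e.symm k)) := hinj h4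
    rw [← hl0 p, ← hl0 q]
    funext l
    have h6 := congrFun h5 (e (0, l))
    simp only [e.symm_apply_apply] at h6
    exact h6

end Pool.Agent.X105.JC
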