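import Pool.Agent.X105.JC.Inj
import Pool.Agent.X105.JC.Red

/-! The explicit polynomial map satisfies the hypotheses of the reduction. -/

set_option autoImplicit false
set_option linter.unusedSimpArgs false

namespace Pool.Agent.X105.JC

open MvPolynomial

theorem aeval_dual {n : ℕ} (z v : Fin n → ℂ) (p : MvPolynomial (Fin n) ℝ) :
    aeval (fun i => (TrivSqZeroExt.inl (z i) + TrivSqZeroExt.inr (v i) : DualNumber ℂ)) p =
      TrivSqZeroExt.inl (aeval z p) + TrivSqZeroExt.inr (∑ l, aeval z (pderiv l p) * v l) := by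
  induction p using MvPolynomial.induction_on with
  | C a =>
    simp only [algHom_C, pderiv_C, map_zero, zero_mul, Finset.sum_const_zero,
      TrivSqZeroExt.inr_zero, add_zero]
    rfl
  | add p q hp hq =>
    simp only [map_add, add_mul, Finset.sum_add_distrib, hp, hq, TrivSqZeroExt.inl_add,
      TrivSqZeroExt.inr_add]
    abel
  | mul_X p i hp =>
    rw [map_mul, hp, aeval_X, map_mul, aeval_X]
    have h : ∑ l, aeval z (pderiv l (p * X i)) * v l =
        aeval z p * v i + z i * ∑ l, aeval z (pderiv l p) * v l := by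
      simp only [Derivation.leibniz, pderiv_X, smul_eq_mul, map_add, map_mul, aeval_X, add_mul,
        Finset.sum_add_distrib]
      congr 1
      · rw [Finset.sum_eq_single i]
        · simp
        · intro b _ hb
          rw [Pi.single_eq_of_ne (Ne.symm hb)]
          simp
        · simp
      · rw [Finset.mul_sum]
        apply Finset.sum_congr rfl
        intro l _
        ring
    rw [h]
    apply TrivSqZeroExt.ext
    · simp
    · simp
      ring

section nat
variable {A B : Type*} [CommRing A] [CommRing B] (φ : A →+* B) (X y x g : A)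

theorem map_fM : φ (fM X y x g) = fM (φ X) (φ y) (φ x) (φ g) := by
  simp only [fM, map_add, map_sub, map_mul, map_pow, map_ofNat, map_one, map_neg]

theorem map_fW : φ (fW X y) = fW (φ X) (φ y) := by
  simp only [fW, map_add, map_sub, map_mul, map_pow, map_ofNat, map_one, map_neg]

theorem map_fR2 : φ (fR2 X y x g) = fR2 (φ X) (φ y) (φ x) (φ g) := by
  simp only [fR2, fp, map_fM, map_add, map_sub, map_mul, map_pow, map_ofNat, map_one, map_neg]

theorem map_fR : φ (fR X y x g) = fR (φ X) (φ y) (φ x) (φ g) := by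
  simp only [fR, fR0, fR1, map_fR2, map_add, map_sub, map_mul, map_pow, map_ofNat, map_one, map_neg]

theorem map_fS2 : φ (fS2 X y x g) = fS2 (φ X) (φ y) (φ x) (φ g) := by
  simp only [fS2, fR1, map_fR2, map_fW, map_add, map_sub, map_mul, map_pow, map_ofNat, map_one,
    map_neg]

theorem map_fS : φ (fS X y x g) = fS (φ X) (φ y) (φ x) (φ g) := by
  simp only [fS, fS0, fS1, map_fS2, map_add, map_sub, map_mul, map_pow, map_ofNat, map_one, map_neg]

theorem map_fc : φ (fc X y x g) = fc (φ X) (φ y) (φ x) (φ g) := by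
  simp only [fc, fc1, map_fR, map_add, map_sub, map_mul, map_pow, map_ofNat, map_one, map_neg]

theorem map_ft : φ (ft X y x g) = ft (φ X) (φ y) (φ x) (φ g) := by
  simp only [ft, ft0, map_fS, map_add, map_sub, map_mul, map_pow, map_ofNat, map_one, map_neg]

theorem map_fu : φ (fu X y x g) = fu (φ X) (φ y) (φ x) (φ g) := by
  simp only [fu, fc1, ft0, map_fS, map_fR, map_fW, map_add, map_sub, map_mul, map_pow, map_ofNat,
    map_one, map_neg]

theorem map_fa : φ (fa X y x g) = fa (φ X) (φ y) (φ x) (φ g) := by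
  simp only [fa, fB, fc1, ft0, fS0, fS1, fR0, fR1, map_fS, map_fR, map_fS2, map_fR2, map_fW,
    map_add, map_sub, map_mul, map_pow, map_ofNat, map_one, map_neg]

end nat

section lin
variable {E : Type*} [CommRing E] (X y x g : E)

theorem lin_all (hXX : X * X = 0) (hyy : y * y = 0) (hXy : X * y = 0) (hyg : y * g = 0) :
    fc X y x g = X ∧ ft X y x g = 2 * y ∧ fu X y x g = -4 * g ∧ fa X y x g = -8 * x := by
  have y2 : y^2 = 0 := by rw [sq, hyy]
  have y4 : y^4 = 0 := by rw [show y^4 = y^2 * y^2 by ring, y2, zero_mul]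
  have y5 : y^5 = 0 := by rw [pow_succ, y4, zero_mul]
  have y6 : y^6 = 0 := by rw [pow_succ, y5, zero_mul]
  have X2 : X^2 = 0 := by rw [sq, hXX]
  have X3 : X^3 = 0 := by rw [pow_succ, X2, zero_mul]
  have X4 : X^4 = 0 := by rw [pow_succ, X3, zero_mul]
  have X6 : X^6 = 0 := by rw [show X^6 = X^4 * X^2 by ring, X4, zero_mul]
  have hW : fW X y = 1 := by rw [fW, hXy]; ring
  have hc1 : fc1 X y = 1 := by rw [fc1, hXy]; ring
  have ht0 : ft0 X y = 2 := by rw [ft0, hXy]; ring
  have hR0 : fR0 y g = -4 * g := by rw [fR0, y4]; ring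
  have hR1 : fR1 y g = 0 := by rw [fR1, y5, mul_assoc, hyg]; ring
  have hS0 : fS0 y g = 3 * g := by rw [fS0, y4]; ring
  have hS1 : fS1 y g = 0 := by rw [fS1, y5, mul_assoc, hyg]; ring
  have hR2 : fR2 X y x g = -12 * x := by
    rw [fR2, y6, X2, X6, y2, hXy, mul_assoc 2 y g, hyg]; ring
  have hS2 : fS2 X y x g = 10 * x := by rw [fS2, hR2, hR1, hW]; ring
  have hR : fR X y x g = -4 * g := by rw [fR, hR0, hR1, X2]; ring
  have hS : fS X y x g = 3 * g := by rw [fS, hS0, hS1, X2]; ring
  refine ⟨?_, ?_, ?_, ?_⟩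
  · rw [fc, hc1, X4]; ring
  · rw [ft, ht0, X3]; ring
  · rw [fu, y4, X4, hS, hR, hW, hXy, hc1]; ring
  · rw [fa, fB, hW, y6, X2, hS2, hR2, hXy, hc1, y2, hS1, hR1]; ring

end lin

end Pool.Agent.X105.JC
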