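import Pool.Agent.X105.JC.Alg

/-! Infinitesimal injectivity of the map of the affine four-space. -/

set_option autoImplicit false

namespace Pool.Agent.X105.JC

section unit
variable {E : Type*} [CommRing E]

theorem inj_unit (h2 : ∀ z : E, 2 * z = 0 → z = 0) (X y x g X' y' x' g' I I' : E)
    (hI : I * X = 1) (hI' : I' * X' = 1) (hX : (X - X')^2 = 0)
    (hw : (I^2 * fW X y - I'^2 * fW X' y')^2 = 0)
    (hc : fc X y x g = fc X' y' x' g') (ht : ft X y x g = ft X' y' x' g')
    (hu : fu X y x g = fu X' y' x' g') (ha : fa X y x g = fa X' y' x' g') :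
    X = X' ∧ y = y' ∧ x = x' ∧ g = g' := by
  have key : ∀ X y x g I : E, I * X = 1 →
      ft X y x g = I * fk X y x g - I^2 * fW X y * fc X y x g ∧
      fu X y x g = I^4 + 3 * (I^2 * fW X y)^2 - 12 * (I^2 * fW X y) * ft X y x g ^ 2
        - 12 * (I^2 * fW X y)^2 * fc X y x g * ft X y x g
        - 4 * (I^2 * fW X y)^3 * fc X y x g ^ 2 ∧
      fa X y x g = I^4 * (I^2 * fW X y) + 2 * (I^2 * fW X y)^3
        - 6 * (I^2 * fW X y)^2 * ft X y x g ^ 2
        - 8 * (I^2 * fW X y)^3 * fc X y x g * ft X y x g
        - 3 * (I^2 * fW X y)^4 * fc X y x g ^ 2 := by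
    intro X y x g I hI
    have h1 := rel_t X y x g
    have h2 := rel_u X y x g
    have h3 := rel_a X y x g
    have h4 : fc X y x g = X * fC X y x g := rfl
    have hC : fC X y x g = I * fc X y x g := by rw [h4, ← mul_assoc, hI, one_mul]
    rw [hC] at h1 h2 h3
    have hI4 : I^4 * X^4 = 1 := by rw [← mul_pow, hI, one_pow]
    have hI6 : I^6 * X^6 = 1 := by rw [← mul_pow, hI, one_pow]
    have hI2 : I^2 * X^2 = 1 := by rw [← mul_pow, hI, one_pow]
    generalize fc X y x g = c at *
    generalize ft X y x g = t at *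
    generalize fu X y x g = u at *
    generalize fa X y x g = a at *
    generalize fk X y x g = k at *
    generalize fW X y = W at *
    refine ⟨?_, ?_, ?_⟩
    · linear_combination I * h1 - t * hI
    · linear_combination I^4 * h2 - u * hI4 + (-12 * W * t^2 * I^2) * hI2
        + (-12 * W^2 * c * t * I^4) * hI
    · linear_combination I^6 * h3 - a * hI6 + (-6 * W^2 * t^2 * I^4) * hI2
        + (-8 * W^3 * c * t * I^6) * hI
  obtain ⟨k1, k2, k3⟩ := key X y x g I hI
  obtain ⟨l1, l2, l3⟩ := key X' y' x' g' I' hI'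
  have hCC : fC X y x g = I * fc X y x g := by
    rw [show fc X y x g = X * fC X y x g from rfl, ← mul_assoc, hI, one_mul]
  have hCC' : fC X' y' x' g' = I' * fc X' y' x' g' := by
    rw [show fc X' y' x' g' = X' * fC X' y' x' g' from rfl, ← mul_assoc, hI', one_mul]
  have hJ := rel_J X y x g
  have hJ' := rel_J X' y' x' g'
  rw [hc, ht, hu] at k2
  rw [hc, ht, ha] at k3
  rw [hc, ht] at k1
  rw [hc] at hCC
  generalize fc X' y' x' g' = c at *
  generalize ft X' y' x' g' = t at *
  generalize fu X' y' x' g' = u at *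
  generalize fa X' y' x' g' = a at *
  -- w = w'
  have hww : I^2 * fW X y = I'^2 * fW X' y' := by
    generalize I^2 * fW X y = w at *
    generalize I'^2 * fW X' y' = w' at *
    have h : I'^4 * (w - w') = 0 := by
      linear_combination w * k2 - k3 - (w' * l2 - l3) - (w - w') * l2
        - (-(w + 2 * w') + 6 * t^2 + 4 * c * t * (w + 2 * w')
          + c^2 * (3 * w'^2 + 2 * w * w' + w^2)) * hw
    have h' : X'^4 * I'^4 = 1 := by rw [← mul_pow, mul_comm, hI', one_pow]
    linear_combination X'^4 * h - (w - w') * h'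
  rw [hww] at k1 k2
  have hk : I * fk X y x g = I' * fk X' y' x' g' := by linear_combination l1 - k1
  have hv : I^4 = I'^4 := by linear_combination l2 - k2
  have hXX : X = X' := by
    have e1 : X'^4 = X^4 := by
      have h1 : X^4 * I^4 = 1 := by rw [← mul_pow, mul_comm, hI, one_pow]
      have h2 : X'^4 * I'^4 = 1 := by rw [← mul_pow, mul_comm, hI', one_pow]
      linear_combination X^4 * X'^4 * hv - X'^4 * h1 + X^4 * h2
    have e2 : 4 * X'^3 * (X - X') = 0 := by
      linear_combination (-1 : E) * e1 - (X^2 + 2 * X * X' + 3 * X'^2) * hX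
    have e3 : 2 * (2 * (X - X')) = 0 := by
      have h2 : X'^3 * I'^3 = 1 := by rw [← mul_pow, mul_comm, hI', one_pow]
      linear_combination I'^3 * e2 - 4 * (X - X') * h2
    exact sub_eq_zero.1 (h2 _ (h2 _ e3))
  subst hXX
  have hII : I = I' := by linear_combination I * hI' * (-1 : E) + I' * hI
  subst hII
  have hIX : X * I = 1 := by rw [mul_comm, hI]
  have cancel : ∀ z w : E, X * z = X * w → z = w := by
    intro z w h
    linear_combination I * h - (z - w) * hI
  have hWW : fW X y = fW X y' := by
    have h2 : X^2 * I^2 = 1 := by rw [← mul_pow, mul_comm, hI, one_pow]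
    linear_combination X^2 * hww - (fW X y - fW X y') * h2
  have hyy : y = y' := by
    apply cancel
    apply sub_eq_zero.1
    apply h2
    apply h2
    rw [fW, fW] at hWW
    linear_combination hWW
  subst hyy
  have hkk : fk X y x g = fk X y x' g' := by
    linear_combination X * hk - (fk X y x g - fk X y x' g') * hI
  have hJJ : fJ X y g = fJ X y g' := by
    rw [hkk] at hJ
    linear_combination hJ' - hJ + hCC - hCC'
  have hgg : g = g' := by
    apply cancel
    apply cancel
    apply cancel
    apply cancel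
    apply sub_eq_zero.1
    apply h2
    rw [fJ, fJ] at hJJ
    linear_combination hJJ
  subst hgg
  refine ⟨rfl, rfl, ?_, rfl⟩
  apply cancel
  apply cancel
  apply cancel
  apply cancel
  apply cancel
  apply cancel
  apply sub_eq_zero.1
  apply h2
  rw [fk, fk, fM, fM] at hkk
  linear_combination (-1 : E) * hkk
end unit

section zero
variable {E : Type*} [CommRing E]

theorem inj_zero (h2 : ∀ z : E, 2 * z = 0 → z = 0) (X y x g y' x' g' : E)
    (hX : X * X = 0)
    (hc : fc X y x g = fc 0 y' x' g') (ht : ft X y x g = ft 0 y' x' g')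
    (hu : fu X y x g = fu 0 y' x' g') (ha : fa X y x g = fa 0 y' x' g') :
    X = 0 ∧ y = y' ∧ x = x' ∧ g = g' := by
  have hX0 : X = 0 := by
    rw [fc, fc, fc1, fc1] at hc
    linear_combination hc - (-6 * y + 42 * X * y^2 - 308 * X^2 * y^3 + X^3 * fR X y x g) * hX
  subst hX0
  have hy : y = y' := by
    apply sub_eq_zero.1
    apply h2
    rw [ft, ft, ft0, ft0] at ht
    linear_combination ht
  subst hy
  have hg : g = g' := by
    apply sub_eq_zero.1
    apply h2
    apply h2
    have e : ∀ x g : E, fu 0 y x g = -1500 * y^4 - 4 * g := by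
      intro x g
      rw [fu, fS, fR, fS0, fR0, fc1, fW]
      ring
    rw [e, e] at hu
    linear_combination (-1 : E) * hu
  subst hg
  refine ⟨rfl, rfl, ?_, rfl⟩
  apply sub_eq_zero.1
  apply h2
  apply h2
  apply h2
  have e : ∀ x : E, fa 0 y x g = -12712 * y^6 - 48 * y^2 * g - 8 * x := by
    intro x
    rw [fa, fB, fS2, fR2, fS1, fR1, fS0, fR0, fc1, fW, fM, fp]
    ring
  rw [e, e] at ha
  linear_combination (-1 : E) * ha

end zero

end Pool.Agent.X105.JC
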