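import Pool.Agent.X105.JC.Abs

/-! The map with unipotent Jacobian matrices attached to a polynomial map. -/

set_option autoImplicit false

namespace Pool.Agent.X105.JC

open MvPolynomial

/-- The linear algebra of the pencil. -/
theorem pencil {n K : ℕ} (V B : ℕ → Fin n → ℂ) (z : ℂ) (hz : z ≠ 1)
    (hV : ∀ j ≤ K, ∀ i, V j i + B j i - V (j + 1) i = z * V j i)
    (hK : V (K + 1) = 0)
    (hB : V 0 = 0 → ∀ j, B j = 0)
    (hinj : ∀ u : ℂ, (∀ i, V 0 i + ∑ j ∈ Finset.range (K + 1), u ^ (j + 1) * B j i = 0) → V 0 = 0) :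
    ∀ j ≤ K, V j = 0 := by
  have hz' : 1 - z ≠ 0 := sub_ne_zero.2 (Ne.symm hz)
  obtain ⟨u, hu⟩ : ∃ u : ℂ, u * (1 - z) = 1 := ⟨(1 - z)⁻¹, inv_mul_cancel₀ hz'⟩
  have h0 : V 0 = 0 := by
    apply hinj u
    intro i
    have h1 : ∑ j ∈ Finset.range (K + 1), (u ^ j * V j i - u ^ (j + 1) * V (j + 1) i) = V 0 i := by
      rw [Finset.sum_range_sub' (fun j => u ^ j * V j i), hK]
      simp
    have h2 : ∑ j ∈ Finset.range (K + 1), (u ^ j * V j i - u ^ (j + 1) * V (j + 1) i) =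
        ∑ j ∈ Finset.range (K + 1), - (u ^ (j + 1) * B j i) := by
      apply Finset.sum_congr rfl
      intro j hj
      have h3 := hV j (Nat.lt_succ_iff.1 (Finset.mem_range.1 hj)) i
      linear_combination u ^ (j + 1) * h3 - u ^ j * V j i * hu
    rw [← h1, h2, ← Finset.sum_add_distrib]
    simp
  have hB' := hB h0
  have hdown : ∀ d, ∀ j, j + d = K + 1 → V j = 0 := by
    intro d
    induction d with
    | zero =>
      intro j hj
      rw [show j = K + 1 by omega, hK]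
    | succ d ih =>
      intro j hj
      have h4 := ih (j + 1) (by omega)
      funext i
      have h3 := hV j (by omega) i
      rw [h4, hB'] at h3
      simp only [Pi.zero_apply] at h3 ⊢
      have h5 : (1 - z) * V j i = 0 := by linear_combination h3
      rcases mul_eq_zero.1 h5 with h | h
      · exact absurd h hz'
      · exact h
  intro j hj
  exact hdown (K + 1 - j) j (by omega)

/-- the value at the next level, or zero -/
def nxt {n K : ℕ} {R : Type*} [Zero R] (x : Fin (K + 1) × Fin n → R) (a : Fin (K + 1) × Fin n) : R :=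
  if h : (a.1 : ℕ) + 1 < K + 1 then x (⟨(a.1 : ℕ) + 1, h⟩, a.2) else 0

/-- The map. -/
noncomputable def Phi {n : ℕ} (F : Fin n → MvPolynomial (Fin n) ℝ) (K : ℕ)
    (x : Fin (K + 1) × Fin n → ℝ) : Fin (K + 1) × Fin n → ℝ :=
  fun a => x a + eval (fun l => x (0, l)) (homogeneousComponent ((a.1 : ℕ) + 2) (F a.2)) - nxt x a

/-- Its derivative. -/
noncomputable def dPhi {n : ℕ} (F : Fin n → MvPolynomial (Fin n) ℝ) (K : ℕ)
    (x : Fin (K + 1) × Fin n → ℝ) :
    (Fin (K + 1) × Fin n → ℝ) →L[ℝ] (Fin (K + 1) × Fin n → ℝ) :=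
  ContinuousLinearMap.pi fun a => ContinuousLinearMap.proj a +
    (∑ l, eval (fun l => x (0, l)) (pderiv l (homogeneousComponent ((a.1 : ℕ) + 2) (F a.2))) •
      (ContinuousLinearMap.proj ((0 : Fin (K + 1)), l) :
        (Fin (K + 1) × Fin n → ℝ) →L[ℝ] ℝ)) -
    (if h : (a.1 : ℕ) + 1 < K + 1 then
      (ContinuousLinearMap.proj ((⟨(a.1 : ℕ) + 1, h⟩ : Fin (K + 1)), a.2) :
        (Fin (K + 1) × Fin n → ℝ) →L[ℝ] ℝ) else 0)

theorem dPhi_apply {n : ℕ} (F : Fin n → MvPolynomial (Fin n) ℝ) (K : ℕ)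
    (x v : Fin (K + 1) × Fin n → ℝ) (a : Fin (K + 1) × Fin n) :
    dPhi F K x v a = v a +
      (∑ l, eval (fun l => x (0, l)) (pderiv l (homogeneousComponent ((a.1 : ℕ) + 2) (F a.2))) *
        v (0, l)) - nxt v a := by
  simp only [dPhi, ContinuousLinearMap.coe_pi', ContinuousLinearMap.sub_apply,
    ContinuousLinearMap.add_apply, ContinuousLinearMap.proj_apply, nxt]
  congr 1
  · congr 1
    rw [ContinuousLinearMap.sum_apply]
    rfl
  · split_ifs
    · rfl
    · rfl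

theorem hasFDerivAt_Phi {n : ℕ} (F : Fin n → MvPolynomial (Fin n) ℝ) (K : ℕ)
    (x : Fin (K + 1) × Fin n → ℝ) : HasFDerivAt (Phi F K) (dPhi F K x) x := by
  rw [hasFDerivAt_pi']
  intro a
  have h1 : HasFDerivAt (fun x : Fin (K + 1) × Fin n → ℝ => x a)
      (ContinuousLinearMap.proj a : (Fin (K + 1) × Fin n → ℝ) →L[ℝ] ℝ) x := hasFDerivAt_apply a x
  have h2 : HasFDerivAt (fun x : Fin (K + 1) × Fin n → ℝ =>
      eval (fun l => x (0, l)) (homogeneousComponent ((a.1 : ℕ) + 2) (F a.2)))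
      (∑ l, eval (fun l => x (0, l)) (pderiv l (homogeneousComponent ((a.1 : ℕ) + 2) (F a.2))) •
      (ContinuousLinearMap.proj ((0 : Fin (K + 1)), l) :
        (Fin (K + 1) × Fin n → ℝ) →L[ℝ] ℝ)) x := by
    have h3 : HasFDerivAt (fun (x : Fin (K + 1) × Fin n → ℝ) (l : Fin n) => x (0, l))
        (ContinuousLinearMap.pi fun l => (ContinuousLinearMap.proj ((0 : Fin (K + 1)), l) :
        (Fin (K + 1) × Fin n → ℝ) →L[ℝ] ℝ)) x :=
      (ContinuousLinearMap.pi fun l => (ContinuousLinearMap.proj ((0 : Fin (K + 1)), l) :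
        (Fin (K + 1) × Fin n → ℝ) →L[ℝ] ℝ)).hasFDerivAt
    have h4 := (hasFDerivAt_eval (homogeneousComponent ((a.1 : ℕ) + 2) (F a.2))
      (fun l => x (0, l))).comp x h3
    refine h4.congr_fderiv ?_
    ext v
    simp only [ContinuousLinearMap.comp_apply, ContinuousLinearMap.sum_apply,
      ContinuousLinearMap.smul_apply, ContinuousLinearMap.proj_apply,
      ContinuousLinearMap.coe_pi']
  have h5 : HasFDerivAt (fun x : Fin (K + 1) × Fin n → ℝ => nxt x a)
    (if h : (a.1 : ℕ) + 1 < K + 1 then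
      (ContinuousLinearMap.proj ((⟨(a.1 : ℕ) + 1, h⟩ : Fin (K + 1)), a.2) :
        (Fin (K + 1) × Fin n → ℝ) →L[ℝ] ℝ) else 0) x := by
    unfold nxt
    split_ifs with h
    · exact hasFDerivAt_apply _ x
    · exact hasFDerivAt_const 0 x
  have h6 := (h1.add h2).sub h5
  refine h6.congr_fderiv ?_
  ext v
  simp only [dPhi, ContinuousLinearMap.comp_apply, ContinuousLinearMap.proj_apply,
      ContinuousLinearMap.coe_pi']

theorem contDiff_Phi {n : ℕ} (F : Fin n → MvPolynomial (Fin n) ℝ) (K : ℕ) :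
    ContDiff ℝ 1 (Phi F K) := by
  rw [contDiff_pi]
  intro a
  refine ContDiff.sub (ContDiff.add (contDiff_apply ℝ ℝ a) ?_) ?_
  · have h3 : ContDiff ℝ 1 (fun (x : Fin (K + 1) × Fin n → ℝ) (l : Fin n) => x (0, l)) :=
      contDiff_pi.2 (fun l => contDiff_apply ℝ ℝ _)
    exact (contDiff_eval _).comp h3
  · unfold nxt
    split_ifs with h
    · exact contDiff_apply ℝ ℝ _
    · exact contDiff_const

end Pool.Agent.X105.JC
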